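import Pool.Agent.Work.MP_eac634_nt.Defs

namespace Pool.Agent.Work.MP_eac634_nt

/-- `n` is a sum of at most `k` natural numbers `u` (repetitions allowed), each with `u` or
`u - 1` coprime to `b`. -/
def IsSumOfU (b k n : ℕ) : Prop :=
  ∃ l : List ℕ, l.length ≤ k ∧ (∀ u ∈ l, u.Coprime b ∨ (u - 1).Coprime b) ∧ l.sum = n

/-- The constant `K_b` of the problem, as an extended nonnegative real (`∞` if there is no
admissible `k`). -/
noncomputable def Kb (b : ℕ) : ENNReal :=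
  sInf {x : ENNReal | ∃ k : ℕ, x = k ∧ 2 ≤ k ∧
    ∃ N₀ : ℕ, ∀ N : ℕ, N₀ ≤ N → IsSumOfRevPrimes b k N}

end Pool.Agent.Work.MP_eac634_nt
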