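import Pool.Agent.Work.MP_eac634_nt.Main
import Pool.Agent.Work.MP_eac634_nt.Hedge.Defs

-- merged part: Pool.Agent.Work.MP_eac634_nt.Hedge.Two
section
/-!
# Sums of two reversed primes from prescribed residue classes
-/

open Finset Filter Topology

namespace Pool.Agent.Work.MP_eac634_nt

lemma rho_mul_totient_le (B : ℕ) : rho B * (B.totient : ℝ) ≤ B := by
  have h : (B.totient : ℝ) = B * ∏ p ∈ B.primeFactors, (1 - (p : ℝ)⁻¹) := by
    have := congrArg (fun x : ℚ => (x : ℝ)) (Nat.totient_eq_mul_prod_factors B)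
    simpa using this
  rw [h, rho, mul_left_comm, ← prod_mul_distrib]
  refine mul_le_of_le_one_right (by positivity) (prod_le_one (fun p hp => ?_) fun p hp => ?_)
  · have h1 : (1 : ℝ) ≤ p := by exact_mod_cast (Nat.prime_of_mem_primeFactors hp).one_le
    have h2 : (p : ℝ)⁻¹ ≤ 1 := inv_le_one_of_one_le₀ h1
    have h3 : (0 : ℝ) ≤ 1 - (p : ℝ)⁻¹ := by linarith
    positivity
  · rw [one_div]
    nlinarith [sq_nonneg ((p : ℝ)⁻¹)]

/-- The final numerical step. -/
lemma two_numeric {X a c s w η t L ρ φ B : ℝ} (hX : 0 < X) (hL : 0 < L) (hφ : 0 < φ)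
    (hs : 0 ≤ s) (hB : 1 ≤ B) (ht : 1 ≤ t) (hη : η = 1 / t ^ 2)
    (hLt : φ * L ≤ t) (ha : X ≤ 4 * φ * L * a) (hc : X ≤ 4 * φ * L * c)
    (hW : w * L ≤ 64 * ρ) (hρ : ρ * φ ≤ B)
    (h : a * c - w * (a * s) ≤ η * X * √(a * s)) : X ≤ 512 * B * s := by
  by_contra hcon
  push Not at hcon
  have hT : 0 < φ * L := by positivity
  have ha0 : 0 < a := by
    by_contra h1
    have : 4 * φ * L * a ≤ 0 := mul_nonpos_of_nonneg_of_nonpos (by positivity) (not_lt.1 h1)
    linarith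
  have hc0 : 0 < c := by
    by_contra h1
    have : 4 * φ * L * c ≤ 0 := mul_nonpos_of_nonneg_of_nonpos (by positivity) (not_lt.1 h1)
    linarith
  have h7 : w * s ≤ c / 2 := by
    clear * - w L φ B ρ hρ hφ hW s hs c X hc hcon hT
    have e1 : w * L * φ ≤ 64 * B := by nlinarith
    have e2 : w * L * φ * s ≤ 64 * B * s := mul_le_mul_of_nonneg_right e1 hs
    have : w * s * (φ * L) ≤ c / 2 * (φ * L) := by nlinarith
    exact le_of_mul_le_mul_right this hT
  have hη0 : 0 ≤ η := by rw [hη]; positivity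
  have h8 : a * c / 2 ≤ η * X * √(a * s) := by clear * - a c η X s w φ L hX h7 ha h hT; nlinarith
  have h9 : (a * c) ^ 2 / 4 ≤ η ^ 2 * X ^ 2 * (a * s) := by
    clear * - a c η X s ha0 hc0 h8 hs
    have := pow_le_pow_left₀ (by positivity) h8 2
    rw [mul_pow, mul_pow, Real.sq_sqrt (by positivity)] at this
    linarith
  have h10 : a * c ^ 2 ≤ 4 * η ^ 2 * X ^ 2 * s := by
    clear * - a c η X s h9 ha0
    have : a * c ^ 2 * a ≤ 4 * η ^ 2 * X ^ 2 * s * a := by nlinarith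
    exact le_of_mul_le_mul_right this ha0
  have h11 : 512 * s ≤ X := by clear * - s X B hcon hs hB; nlinarith
  have h12 : X ^ 3 ≤ 64 * (φ * L) ^ 3 * (a * c ^ 2) := by
    clear * - X φ L a c ha hX hc hφ hL ha0
    calc X ^ 3 = X * X ^ 2 := by ring
      _ ≤ (4 * φ * L * a) * (4 * φ * L * c) ^ 2 := by gcongr
      _ = _ := by ring
  have h13 : η ^ 2 * (φ * L) ^ 3 ≤ 1 := by
    clear * - η φ L t hη hφ hL hLt ht
    rw [hη]
    calc _ ≤ (1 / t ^ 2) ^ 2 * t ^ 3 := by gcongr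
      _ = 1 / t := by field_simp
      _ ≤ 1 := by rw [div_le_one (by linarith)]; exact ht
  have h14 : X ^ 3 ≤ 256 * (η ^ 2 * (φ * L) ^ 3) * X ^ 2 * s := by
    clear * - X φ L η s a c h12 h10 hφ hL
    calc X ^ 3 ≤ 64 * (φ * L) ^ 3 * (4 * η ^ 2 * X ^ 2 * s) := h12.trans (by gcongr)
      _ = _ := by ring
  have h15 : X ^ 3 ≤ 256 * 1 * X ^ 2 * s := h14.trans (by clear * - s η φ L X h13 hX hs h14; gcongr)
  have h16 : 0 < X ^ 2 := by positivity
  clear * - X s h15 h11 hX h16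
  nlinarith

lemma win_mem {b q a l p : ℕ} (hb : 2 ≤ b) (hl : 1 ≤ l) (hp : p ∈ win q a (b ^ (l + 1))) :
    p.Prime ∧ p ≡ a [MOD q] ∧ b ^ l < p ∧ p < b ^ (l + 1) := by
  obtain ⟨c1, c2, c3, c4⟩ := mem_win.1 hp
  have c5 : b ^ l < p := by
    clear * - b l p c4 hb
    rw [pow_succ] at c4
    nlinarith [Nat.zero_le (b ^ l)]
  refine ⟨c2, c3, c5, lt_of_le_of_ne c1 ?_⟩
  rintro rfl
  have := c2.eq_one_of_pow
  omega

lemma win_card {b q a l : ℕ} (hb : 2 ≤ b) (hl : 1 ≤ l) (hq : 0 < q)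
    (h : ((b ^ (l + 1) : ℕ) : ℝ) / (4 * q.totient) ≤ ∑ p ∈ win q a (b ^ (l + 1)), Real.log p) :
    (b : ℝ) ^ (l + 1) ≤
      4 * q.totient * (((l + 1 : ℕ) : ℝ) * Real.log b) * (win q a (b ^ (l + 1))).card := by
  have h0 : (0 : ℝ) < q.totient := by exact_mod_cast Nat.totient_pos.2 hq
  have h2 : ∑ p ∈ win q a (b ^ (l + 1)), Real.log p ≤
      ∑ p ∈ win q a (b ^ (l + 1)), ((l + 1 : ℕ) : ℝ) * Real.log b := by
    refine sum_le_sum fun p hp => ?_
    rw [← Real.log_pow]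
    refine Real.log_le_log (by exact_mod_cast (win_mem hb hl hp).1.pos) ?_
    exact_mod_cast (win_mem hb hl hp).2.2.2.le
  rw [sum_const, nsmul_eq_mul] at h2
  rw [div_le_iff₀ (by positivity), Nat.cast_pow] at h
  clear * - b l q a h h2
  nlinarith

theorem eventually_sumset_two {b a₁ a₂ : ℕ} (hb : 2 ≤ b) (h₁ : a₁.Coprime (b * (b ^ 2 - 1)))
    (h₂ : a₂.Coprime (b * (b ^ 2 - 1))) : ∀ᶠ l : ℕ in atTop, ∃ S : Finset ℕ,
    (∀ s ∈ S, ∃ p q : ℕ, p.Prime ∧ q.Prime ∧ p ≡ a₁ [MOD b * (b ^ 2 - 1)] ∧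
      q ≡ a₂ [MOD b * (b ^ 2 - 1)] ∧ b ^ l ≤ p ∧ p < b ^ (l + 1) ∧ b ^ l ≤ q ∧ q < b ^ (l + 1) ∧
      s = R b (l + 1) p + R b (l + 1) q) ∧
      b ^ (l + 1) ≤ 512 * (b * (b ^ 2 - 1)) * S.card := by
  classical
  have hb' : (2 : ℝ) ≤ b := by exact_mod_cast hb
  have hlog : 0 < Real.log b := Real.log_pos (by linarith)
  set B := b * (b ^ 2 - 1) with hB
  have hB0 : B ≠ 0 := by
    clear * - b hb a₁ a₂
    have : 1 < b ^ 2 := by nlinarith
    exact Nat.mul_ne_zero (by omega) (by omega)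
  have hBpos : 0 < B := Nat.pos_of_ne_zero hB0
  have hφ : (1 : ℝ) ≤ B.totient := by exact_mod_cast Nat.totient_pos.2 hBpos
  have ht := (tendsto_pow_nat hb).comp (tendsto_add_atTop_nat 1)
  have e1 := ht.eventually (eventually_win hBpos h₁)
  have e2 := ht.eventually (eventually_win hBpos h₂)
  have e3 := (tendsto_add_atTop_nat 1).eventually
    (eventually_error hb (ε := 1 / ((1 + Real.log b) * B.totient) ^ 2) (by positivity))
  filter_upwards [e1, e2, e3, eventually_ge_atTop 15] with l' a1 a1' a2 a3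
  simp only [Function.comp] at a1 a1'
  have hl1 : 1 ≤ l' := by omega
  have g1 := win_card hb hl1 hBpos a1
  have g2 := win_card hb hl1 hBpos a1'
  set P := win B a₁ (b ^ (l' + 1)) with hP
  set P' := win B a₂ (b ^ (l' + 1)) with hP'
  have hPmem : ∀ p ∈ P, p.Prime ∧ p ≡ a₁ [MOD B] ∧ b ^ l' < p ∧ p < b ^ (l' + 1) :=
    fun p hp => win_mem hb hl1 hp
  have hPmem' : ∀ p ∈ P', p.Prime ∧ p ≡ a₂ [MOD B] ∧ b ^ l' < p ∧ p < b ^ (l' + 1) :=
    fun p hp => win_mem hb hl1 hp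
  set D := b ^ ((l' + 1) / 16) with hD
  have hD1 : 1 ≤ D := Nat.one_le_pow _ _ (by omega)
  have hDle : D ≤ b ^ l' := Nat.pow_le_pow_right (by omega) (by omega)
  set l := l' + 1 with hl
  have hl' : (16 : ℝ) ≤ l := by exact_mod_cast (by omega : 16 ≤ l)
  set A := P.image (R b l) with hA
  have hcard : A.card = P.card := card_image_of_injOn fun p hp q hq h =>
    R_inj (by omega) l p q (hPmem p hp).2.2.2 (hPmem q hq).2.2.2 h
  have hAlt : ∀ a ∈ A, a < b ^ l := by
    intro a ha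
    obtain ⟨p, _, rfl⟩ := mem_image.1 ha
    exact R_lt (by omega) _ _
  set S := (P ×ˢ P').image (fun x => R b l x.1 + R b l x.2) with hS
  have hSlt : ∀ s ∈ S, s < 2 * b ^ l := by
    intro s hs
    obtain ⟨⟨x, y⟩, _, rfl⟩ := mem_image.1 hs
    have := R_lt (b := b) (by omega) l x
    have := R_lt (b := b) (by omega) l y
    simp only
    omega
  refine ⟨S, ?_, ?_⟩
  · intro s hs
    obtain ⟨⟨x, y⟩, hxy, rfl⟩ := mem_image.1 hs
    rw [mem_product] at hxy
    obtain ⟨u1, u2, u3, u4⟩ := hPmem x hxy.1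
    obtain ⟨v1, v2, v3, v4⟩ := hPmem' y hxy.2
    exact ⟨x, y, u1, v1, u2, v2, u3.le, u4, v3.le, v4, rfl⟩
  have hconv := conv_bound (2 * b ^ l) (by positivity) A S (range (b ^ l))
    (fun n => nu B D n - W B D) (R b l) (fun a ha => by have := hAlt a ha; omega) hSlt
    (fun a ha n _ => by have := hAlt a ha; have := R_lt (b := b) (by omega) l n; omega) _ a2
  have hlow : (A.card : ℝ) * P'.card - W B D * (A.card * S.card) ≤
      ∑ a ∈ A, ∑ n ∈ range (b ^ l), (if a + R b l n ∈ S then nu B D n - W B D else 0) := by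
    clear * - A P' B D S b l P l' a₂ hPmem' hD1 hDle a₁ hb
    have h2 : ∀ a ∈ A, (P'.card : ℝ) - W B D * S.card ≤
        ∑ n ∈ range (b ^ l), (if a + R b l n ∈ S then nu B D n - W B D else 0) := by
      intro a ha
      obtain ⟨p₀, hp₀, rfl⟩ := mem_image.1 ha
      rw [← sum_filter, sum_sub_distrib, sum_const, nsmul_eq_mul]
      have h3 : P' ⊆ (range (b ^ l)).filter (fun n => R b l p₀ + R b l n ∈ S) := by
        intro p hp
        exact mem_filter.2 ⟨mem_range.2 (hPmem' p hp).2.2.2,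
          mem_image.2 ⟨(p₀, p), mem_product.2 ⟨hp₀, hp⟩, rfl⟩⟩
      have h4 : (P'.card : ℝ) ≤ ∑ n ∈ (range (b ^ l)).filter (fun n => R b l p₀ + R b l n ∈ S),
          nu B D n := by
        refine le_trans ?_ (sum_le_sum_of_subset_of_nonneg h3 fun _ _ _ => nu_nonneg _)
        rw [sum_congr rfl fun p hp => nu_prime hD1 (hPmem' p hp).1
          (lt_of_le_of_lt hDle (hPmem' p hp).2.2.1)]
        simp
      have h5 : (((range (b ^ l)).filter (fun n => R b l p₀ + R b l n ∈ S)).card : ℝ) ≤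
          S.card := by
        exact_mod_cast card_le_card_of_injOn (fun n => R b l p₀ + R b l n)
          (fun n hn => (mem_filter.1 (mem_coe.1 hn)).2) (fun m hm n hn h =>
            R_inj (by omega) l m n (mem_range.1 (mem_filter.1 (mem_coe.1 hm)).1)
              (mem_range.1 (mem_filter.1 (mem_coe.1 hn)).1) (by simpa using h))
      have h6 := mul_le_mul_of_nonneg_left h5 (W_nonneg (B := B) (D := D))
      linarith
    refine le_trans (le_of_eq ?_) (sum_le_sum h2)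
    rw [sum_const, nsmul_eq_mul]
    ring
  have hrho := one_le_rho B
  have hW : W B D * (l * Real.log b) ≤ 64 * rho B := by
    clear * - B D hD1 hB0 l b a₁ a₂ l' a3 hD hlog hrho
    have h2 := W_le (B := B) hD1
    have h3 := log_le_G (D := D) hB0
    have h4 := one_le_G (B := B) hD1
    rw [hD] at h3
    push_cast at h3
    rw [Real.log_pow, ← hD] at h3
    have h5 : (l : ℝ) ≤ 32 * ((l / 16 : ℕ) : ℝ) := by
      have : l ≤ 32 * (l / 16) := by omega
      exact_mod_cast this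
    have h6 : (l : ℝ) * Real.log b ≤ 64 * rho B * G B D := by nlinarith
    calc _ ≤ 1 / G B D * (64 * rho B * G B D) := by gcongr
      _ = _ := by field_simp
  rw [← hcard] at g1
  have hφl : (0 : ℝ) < (B.totient : ℝ) * l := by positivity
  have hfin := two_numeric (X := (b : ℝ) ^ l) (a := A.card) (c := P'.card) (s := S.card)
    (w := W B D) (η := 1 / ((1 + Real.log b) * B.totient) ^ 2 / l ^ 2)
    (t := (1 + Real.log b) * B.totient * l) (L := l * Real.log b) (ρ := rho B) (φ := B.totient)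
    (B := B) (by positivity) (by positivity) (by positivity) (by clear * - S B; positivity)
    (by exact_mod_cast hBpos)
    (one_le_mul_of_one_le_of_one_le (one_le_mul_of_one_le_of_one_le (by clear * - b hlog hφ; linarith) hφ)
      (by clear * - l hl'; linarith))
    (by field_simp) (by clear * - B l b hφl g1 g2 hW hconv hlow; nlinarith) g1 g2 hW (rho_mul_totient_le B) (hlow.trans hconv)
  exact_mod_cast hfin

end Pool.Agent.Work.MP_eac634_nt
end

-- merged part: Pool.Agent.Work.MP_eac634_nt.Hedge.Dense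
section
/-!
# Sums of two reversed primes have density bounded below by an absolute constant
-/

open Finset Filter Topology

namespace Pool.Agent.Work.MP_eac634_nt

lemma R_cast {A : Type*} [CommRing A] {b : ℕ} (hb : 0 < b) (h : (b : A) ^ 2 = 1) (l : ℕ) :
    ∀ n, n < b ^ l → (b : A) * (R b l n : ℕ) = (b : A) ^ l * n := by
  induction l with
  | zero =>
    intro n hn
    have : n = 0 := by simpa using hn
    simp [this, R]
  | succ l ih =>
    intro n hn
    have h1 := ih (n / b) (by rw [Nat.div_lt_iff_lt_mul hb]; rwa [pow_succ] at hn)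
    have h2 : (n : A) = b * (n / b : ℕ) + (n % b : ℕ) := by
      exact_mod_cast congrArg (fun x : ℕ => (x : A)) (Nat.div_add_mod n b).symm
    rw [R]
    push_cast
    rw [h2]
    linear_combination h1 - (b : A) ^ l * ((n / b : ℕ) : A) * h

lemma exists_units {B : ℕ} (hB : B ≠ 0) (i : ℕ) :
    ∃ a₁ a₂ : ℕ, a₁.Coprime B ∧ a₂.Coprime B ∧ a₁ + a₂ ≡ 2 * i [MOD B] := by
  classical
  obtain ⟨a, ha⟩ := Nat.chineseRemainderOfFinset (fun p : ℕ => if 2 * i ≡ 1 [MOD p] then 2 else 1)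
    (fun p : ℕ => p) B.primeFactors
    (fun p hp => (Nat.prime_of_mem_primeFactors hp).ne_zero)
    (fun p hp q hq hpq => (Nat.coprime_primes (Nat.prime_of_mem_primeFactors hp)
      (Nat.prime_of_mem_primeFactors hq)).2 hpq)
  obtain ⟨C, rfl⟩ : ∃ C, B = C + 1 := ⟨B - 1, by omega⟩
  have hsum : a + (2 * i + C * a) ≡ 2 * i [MOD C + 1] := by
    rw [show a + (2 * i + C * a) = 2 * i + (C + 1) * a by ring]
    simp [Nat.ModEq]
  refine ⟨a, 2 * i + C * a, ?_, ?_, hsum⟩
  · refine Nat.coprime_of_dvd fun p hp h1 h2 => ?_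
    have h3 := ha p (Nat.mem_primeFactors.2 ⟨hp, h2, hB⟩)
    have h4 : 0 ≡ a [MOD p] := ((Nat.modEq_zero_iff_dvd).2 h1).symm
    have h5 := (Nat.modEq_zero_iff_dvd).1 (h4.trans h3).symm
    split_ifs at h5 with h6
    · have h7 : p = 2 := (Nat.prime_dvd_prime_iff_eq hp Nat.prime_two).1 h5
      rw [h7, Nat.ModEq] at h6
      omega
    · exact hp.one_lt.ne' (Nat.dvd_one.1 h5)
  · refine Nat.coprime_of_dvd fun p hp h1 h2 => ?_
    have h3 := ha p (Nat.mem_primeFactors.2 ⟨hp, h2, hB⟩)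
    have h4 : a + (2 * i + C * a) ≡ a + 0 [MOD p] :=
      Nat.ModEq.add_left _ ((Nat.modEq_zero_iff_dvd).2 h1)
    have h5 : 2 * i ≡ a [MOD p] := (hsum.of_dvd h2).symm.trans h4
    have h6 := h5.trans h3
    split_ifs at h6 with h7
    · have h8 : (1 : ℕ) ≡ 2 [MOD p] := h7.symm.trans h6
      have h9 : p ∣ 2 - 1 := (Nat.modEq_iff_dvd' (by norm_num)).1 h8
      exact hp.one_lt.ne' (Nat.dvd_one.1 h9)
    · exact h7 h6

lemma coprime_sq_sub_one {b : ℕ} (hb : 2 ≤ b) : b.Coprime (b ^ 2 - 1) := by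
  have h : 1 ≤ b ^ 2 := Nat.one_le_pow _ _ (by omega)
  have h1 : (b ^ 2).Coprime (b ^ 2 - 1) := by
    obtain ⟨c, hc⟩ : ∃ c, b ^ 2 = c + 1 := ⟨b ^ 2 - 1, by omega⟩
    rw [hc]
    simp
  exact Nat.Coprime.coprime_dvd_left (dvd_pow_self b two_ne_zero) h1

lemma even_B {b : ℕ} (hb : 2 ≤ b) : ∃ c : ℕ, 0 < c ∧ b * (b ^ 2 - 1) = 2 * c := by
  obtain ⟨k, rfl⟩ : ∃ k, b = k + 1 := ⟨b - 1, by omega⟩
  have h1 : (k + 1) ^ 2 - 1 = k * (k + 2) := by
    rw [show (k + 1) ^ 2 = k * (k + 2) + 1 by ring]; simp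
  obtain ⟨c, hc⟩ := Nat.even_mul_succ_self k
  refine ⟨c * (k + 2), ?_, ?_⟩
  · have : 0 < k * (k + 1) := Nat.mul_pos (by omega) (by omega)
    exact Nat.mul_pos (by omega) (by omega)
  · rw [h1]
    calc (k + 1) * (k * (k + 2)) = (k * (k + 1)) * (k + 2) := by ring
      _ = _ := by rw [hc]; ring

/-- What a sum of two reversals remembers about the class of `p + q`. -/
lemma class_info {b l p q t : ℕ} (hb : 2 ≤ b) (hp : p < b ^ (l + 1)) (hq : q < b ^ (l + 1))
    (h : p + q ≡ t [MOD b * (b ^ 2 - 1)]) :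
    b * (R b (l + 1) p + R b (l + 1) q) ≡ b ^ (l + 1) * t [MOD b ^ 2 - 1] ∧
      ((R b (l + 1) p + R b (l + 1) q) / b ^ l ≡ t [MOD b] ∨
        (R b (l + 1) p + R b (l + 1) q) / b ^ l ≡ t + 1 [MOD b]) := by
  have hb0 : 0 < b := by omega
  constructor
  · have h1 : ((b : ℕ) : ZMod (b ^ 2 - 1)) ^ 2 = 1 := by
      clear * - b hb0
      have h2 : 1 ≤ b ^ 2 := Nat.one_le_pow _ _ hb0
      have h3 : ((b ^ 2 - 1 : ℕ) : ZMod (b ^ 2 - 1)) = 0 := ZMod.natCast_self _
      rw [Nat.cast_sub h2] at h3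
      push_cast at h3
      linear_combination h3
    have h2 := R_cast hb0 h1 (l + 1) p hp
    have h3 := R_cast hb0 h1 (l + 1) q hq
    have h4 := (ZMod.natCast_eq_natCast_iff _ _ _).2 (h.of_mul_left b)
    rw [← ZMod.natCast_eq_natCast_iff]
    push_cast at h4 ⊢
    linear_combination h2 + h3 + ((b : ℕ) : ZMod (b ^ 2 - 1)) ^ (l + 1) * h4
  · have hY : 0 < b ^ l := by positivity
    have h1 := R_lt hb0 l (p / b)
    have h2 := R_lt hb0 l (q / b)
    have h3 : p % b + q % b ≡ t [MOD b] :=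
      ((Nat.mod_modEq p b).add (Nat.mod_modEq q b)).trans (h.of_mul_right _)
    have h4 : R b (l + 1) p + R b (l + 1) q =
        (R b l (p / b) + R b l (q / b)) + (p % b + q % b) * b ^ l := by
      rw [R, R]; ring
    rw [h4, Nat.add_mul_div_right _ _ hY]
    have h5 : (R b l (p / b) + R b l (q / b)) / b ^ l < 2 := by
      rw [Nat.div_lt_iff_lt_mul hY]; omega
    rcases Nat.lt_succ_iff_lt_or_eq.1 h5 with h6 | h6
    · left
      rw [Nat.lt_one_iff.1 h6, zero_add]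
      exact h3
    · right
      rw [h6, add_comm]
      exact h3.add_right 1

theorem eventually_dense {b : ℕ} (hb : 2 ≤ b) : ∀ᶠ l : ℕ in atTop, ∃ S : Finset ℕ,
    (∀ s ∈ S, s < 2 * b ^ (l + 1) ∧ IsSumOfRevPrimes b 2 s) ∧ b ^ (l + 1) ≤ 2048 * S.card := by
  classical
  obtain ⟨c, hc0, hc⟩ := even_B hb
  have hB0 : b * (b ^ 2 - 1) ≠ 0 := by omega
  have h1 : ∀ᶠ l : ℕ in atTop, ∀ i ∈ range c, ∃ S : Finset ℕ,
      (∀ s ∈ S, (s < 2 * b ^ (l + 1) ∧ IsSumOfRevPrimes b 2 s) ∧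
        b * s ≡ b ^ (l + 1) * (2 * i) [MOD b ^ 2 - 1] ∧
        (s / b ^ l ≡ 2 * i [MOD b] ∨ s / b ^ l ≡ 2 * i + 1 [MOD b])) ∧
      b ^ (l + 1) ≤ 512 * (b * (b ^ 2 - 1)) * S.card := by
    rw [eventually_all_finset]
    intro i _
    obtain ⟨a₁, a₂, k1, k2, k3⟩ := exists_units hB0 i
    filter_upwards [eventually_sumset_two hb k1 k2] with l hl
    obtain ⟨S, hS, hcard⟩ := hl
    refine ⟨S, fun s hs => ?_, hcard⟩
    obtain ⟨p, q, p1, q1, p2, q2, p3, p4, q3, q4, rfl⟩ := hS s hs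
    refine ⟨⟨?_, ?_⟩, class_info hb p4 q4 ((p2.add q2).trans k3)⟩
    · have := R_lt (b := b) (by omega) (l + 1) p
      have := R_lt (b := b) (by omega) (l + 1) q
      omega
    · rw [← rev_eq_R hb p3 p4, ← rev_eq_R hb q3 q4]
      exact isSum_two p1 q1
  filter_upwards [h1] with l hl
  choose! S hS hcard using hl
  set U := (range c).biUnion S with hU
  refine ⟨U, fun s hs => ?_, ?_⟩
  · obtain ⟨i, hi, h⟩ := mem_biUnion.1 hs
    exact (hS i hi s h).1
  have hcop := coprime_sq_sub_one hb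
  have h2 : ∀ s ∈ U, ((range c).filter (fun i => s ∈ S i)).card ≤ 2 := by
    clear * - U S c b l hS hcop hc
    intro s _
    have h3 := card_le_card_of_injOn (s := (range c).filter (fun i => s ∈ S i)) (t := range 2)
      (fun i => if s / b ^ l ≡ 2 * i [MOD b] then 0 else 1)
      (fun i _ => by
        simp only [coe_range, Set.mem_Iio]
        split_ifs <;> norm_num)
      (fun i hi j hj hij => by
        obtain ⟨i1, i2⟩ := mem_filter.1 (mem_coe.1 hi)
        obtain ⟨j1, j2⟩ := mem_filter.1 (mem_coe.1 hj)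
        obtain ⟨_, i3, i4⟩ := hS i i1 s i2
        obtain ⟨_, j3, j4⟩ := hS j j1 s j2
        have e1 : 2 * i ≡ 2 * j [MOD b ^ 2 - 1] :=
          Nat.ModEq.cancel_left_of_coprime (Nat.Coprime.pow_right (l + 1) hcop.symm)
            (i3.symm.trans j3)
        have e2 : 2 * i ≡ 2 * j [MOD b] := by
          by_cases f1 : s / b ^ l ≡ 2 * i [MOD b] <;> by_cases f2 : s / b ^ l ≡ 2 * j [MOD b]
          · exact f1.symm.trans f2
          · simp [f1, f2] at hij
          · simp [f1, f2] at hij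
          · exact Nat.ModEq.add_right_cancel' 1
              ((i4.resolve_left f1).symm.trans (j4.resolve_left f2))
        have e3 := (Nat.modEq_and_modEq_iff_modEq_mul hcop).1 ⟨e2, e1⟩
        rw [hc] at e3
        have i5 := mem_range.1 i1
        have j5 := mem_range.1 j1
        have := e3.eq_of_lt_of_lt (by omega) (by omega)
        omega)
    simpa using h3
  have h3 : ∑ i ∈ range c, (S i).card ≤ 2 * U.card := by
    calc ∑ i ∈ range c, (S i).card = ∑ i ∈ range c, ∑ s ∈ U, if s ∈ S i then 1 else 0 := by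
          refine sum_congr rfl fun i hi => ?_
          rw [← card_filter, filter_mem_eq_inter,
            inter_eq_right.2 (subset_biUnion_of_mem S hi)]
      _ = ∑ s ∈ U, ((range c).filter (fun i => s ∈ S i)).card := by
          rw [sum_comm]
          exact sum_congr rfl fun s _ => (card_filter _ _).symm
      _ ≤ ∑ s ∈ U, 2 := sum_le_sum h2
      _ = _ := by rw [sum_const, smul_eq_mul, mul_comm]
  have h4 : ∑ i ∈ range c, b ^ (l + 1) ≤ ∑ i ∈ range c, 512 * (b * (b ^ 2 - 1)) * (S i).card :=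
    sum_le_sum hcard
  rw [sum_const, card_range, smul_eq_mul, ← mul_sum, hc] at h4
  have h5 : c * b ^ (l + 1) ≤ c * (2048 * U.card) := by
    calc _ ≤ 512 * (2 * c) * (2 * U.card) := h4.trans (Nat.mul_le_mul_left _ h3)
      _ = _ := by ring
  exact Nat.le_of_mul_le_mul_left h5 hc0

end Pool.Agent.Work.MP_eac634_nt
end

-- merged part: Pool.Agent.Work.MP_eac634_nt.Hedge.Upper
section
/-!
# The upper bound `K_b ≤ g(b) + 10 ^ 8`
-/

open Finset Filter Topology

namespace Pool.Agent.Work.MP_eac634_nt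

lemma eventually_exists_prime_mod {b q : ℕ} (hb : 2 ≤ b) (hq : 0 < q) : ∀ᶠ l : ℕ in atTop,
    ∀ d < q, d.Coprime q → ∃ p : ℕ, p.Prime ∧ b ^ l ≤ p ∧ p < b ^ (l + 1) ∧ p % q = d := by
  have h1 : ∀ᶠ l : ℕ in atTop, ∀ d ∈ range q, d.Coprime q →
      ∃ p : ℕ, p.Prime ∧ b ^ l ≤ p ∧ p < b ^ (l + 1) ∧ p % q = d := by
    rw [eventually_all_finset]
    intro d hd
    by_cases hc : d.Coprime q
    · have h2 := ((tendsto_pow_nat hb).comp (tendsto_add_atTop_nat 1)).eventually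
        (eventually_win hq hc)
      filter_upwards [h2, eventually_ge_atTop 1] with l hl hl1 _
      simp only [Function.comp] at hl
      have h0 : (0 : ℝ) < q.totient := by exact_mod_cast Nat.totient_pos.2 hq
      have h3 : (win q d (b ^ (l + 1))).Nonempty := by
        clear * - q d b l hb hq hl
        by_contra h
        rw [not_nonempty_iff_eq_empty] at h
        rw [h, sum_empty] at hl
        have : (0 : ℝ) < ((b ^ (l + 1) : ℕ) : ℝ) / (4 * q.totient) := by
          have : 0 < b := by omega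
          positivity
        linarith
      obtain ⟨p, hp⟩ := h3
      obtain ⟨a1, a2, a3, a4⟩ := win_mem hb hl1 hp
      refine ⟨p, a1, a3.le, a4, ?_⟩
      rw [Nat.ModEq] at a2
      rw [a2, Nat.mod_eq_of_lt (mem_range.1 hd)]
    · exact Eventually.of_forall fun l h => absurd h hc
  filter_upwards [h1] with l hl d hd using hl d (mem_range.2 hd)

lemma rev_bounds_two {b l p d c : ℕ} (hb : 2 ≤ b) (h1 : b ^ (l + 1) ≤ p) (h2 : p < b ^ (l + 1 + 1))
    (hd : d < b) (hc : c < b) (h : p % b ^ 2 = d + c * b) :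
    d * b ^ (l + 1) + c * b ^ l ≤ rev b p ∧ rev b p ≤ d * b ^ (l + 1) + (c + 1) * b ^ l := by
  have hb0 : 0 < b := by omega
  have e0 : p = d + (c + p / b ^ 2 * b) * b := by
    have := Nat.div_add_mod p (b ^ 2)
    rw [h] at this
    calc p = b ^ 2 * (p / b ^ 2) + (d + c * b) := this.symm
      _ = _ := by ring
  have e1 : p % b = d := by
    rw [e0, Nat.add_mul_mod_self_right, Nat.mod_eq_of_lt hd]
  have e2 : p / b = c + p / b ^ 2 * b := by
    conv_lhs => rw [e0]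
    rw [Nat.add_mul_div_right _ _ hb0, Nat.div_eq_of_lt hd, zero_add]
  have e3 : p / b % b = c := by
    rw [e2, Nat.add_mul_mod_self_right, Nat.mod_eq_of_lt hc]
  rw [rev_eq_R hb h1 h2, R, R, e1, e3]
  have := R_lt hb0 l (p / b / b)
  constructor
  · omega
  · rw [add_mul, one_mul]
    omega

lemma pos_of_U {b u : ℕ} (hb : 2 ≤ b) (h : u.Coprime b ∨ (u - 1).Coprime b) : 1 ≤ u := by
  by_contra h1
  have h2 : u = 0 := by omega
  subst h2
  simp at h
  omega

/-- Reversed primes close to `u * b ^ (l + 1)`. -/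
lemma eventually_near {b : ℕ} (hb : 2 ≤ b) : ∀ᶠ l : ℕ in atTop, ∀ u < b,
    (u.Coprime b ∨ (u - 1).Coprime b) → ∃ r, IsSumOfRevPrimes b 1 r ∧
      u * b ^ (l + 1) ≤ r + b ^ l ∧ r ≤ u * b ^ (l + 1) + b ^ l := by
  have hb0 : 0 < b := by omega
  filter_upwards [(tendsto_add_atTop_nat 1).eventually
    (eventually_exists_prime_mod hb (q := b ^ 2) (by positivity))] with l hl u hu h
  have h0 := pos_of_U hb h
  rcases h with h | h
  · obtain ⟨p, p1, p2, p3, p4⟩ := hl u (by nlinarith) (h.pow_right 2)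
    obtain ⟨r1, r2⟩ := rev_bounds_two (d := u) (c := 0) hb p2 p3 hu hb0 (by simpa using p4)
    exact ⟨rev b p, isSum_one p1, by omega, by simpa using r2⟩
  · obtain ⟨d, rfl⟩ : ∃ d, u = d + 1 := ⟨u - 1, by omega⟩
    obtain ⟨c, rfl⟩ : ∃ c, b = c + 1 := ⟨b - 1, by omega⟩
    rw [Nat.add_sub_cancel] at h
    obtain ⟨p, p1, p2, p3, p4⟩ := hl (d + c * (c + 1)) (by nlinarith)
      (Nat.Coprime.pow_right 2 (by rwa [Nat.coprime_add_mul_right_left]))
    obtain ⟨r1, r2⟩ := rev_bounds_two (d := d) (c := c) hb p2 p3 (by omega) (by omega) p4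
    have e : (c + 1) ^ (l + 1) = c * (c + 1) ^ l + (c + 1) ^ l := by ring
    refine ⟨rev (c + 1) p, isSum_one p1, ?_, ?_⟩
    · rw [add_mul, one_mul]; omega
    · rw [add_mul, one_mul] at r2 ⊢; omega

lemma list_near {b X Y : ℕ} (hb : 2 ≤ b) (h : ∀ u < b, (u.Coprime b ∨ (u - 1).Coprime b) →
    ∃ r, IsSumOfRevPrimes b 1 r ∧ u * X ≤ r + Y ∧ r ≤ u * X + Y) :
    ∀ l : List ℕ, (∀ u ∈ l, u.Coprime b ∨ (u - 1).Coprime b) → l.sum < b →
      l.length ≤ l.sum ∧ ∃ r, IsSumOfRevPrimes b l.length r ∧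
        l.sum * X ≤ r + l.length * Y ∧ r ≤ l.sum * X + l.length * Y := by
  intro l
  induction l with
  | nil => intro _ _; exact ⟨le_rfl, 0, isSum_zero _ _, by simp, by simp⟩
  | cons u l ih =>
    intro h1 h2
    rw [List.sum_cons] at h2
    obtain ⟨i1, r, i2, i3, i4⟩ := ih (fun v hv => h1 v (List.mem_cons_of_mem _ hv)) (by omega)
    have h3 := h1 u List.mem_cons_self
    obtain ⟨r', j1, j2, j3⟩ := h u (by omega) h3
    have h4 := pos_of_U hb h3
    rw [List.sum_cons, List.length_cons]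
    refine ⟨by omega, r + r', i2.add j1, ?_, ?_⟩
    · rw [add_mul, add_mul, one_mul]; omega
    · rw [add_mul, add_mul, one_mul]; omega

theorem eventually_isSum_add {b g : ℕ} (hb : 2 ≤ b) (hg : ∀ n < b, IsSumOfU b g n) :
    ∀ᶠ N : ℕ in atTop, IsSumOfRevPrimes b (g + 10 ^ 8) N := by
  obtain ⟨l₀, h₀⟩ := eventually_atTop.1 ((eventually_dense hb).and
    ((eventually_near hb).and (eventually_exists_prime_digit hb)))
  obtain ⟨H, hH⟩ : ∃ H : ℕ, H = 2 * 2 ^ 23 := ⟨_, rfl⟩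
  have hH0 : 0 < H + 1 := by omega
  filter_upwards [eventually_ge_atTop ((H + 1) * b ^ (l₀ + 1))] with N hN
  have hN1 : b ^ (l₀ + 1) ≤ N / (H + 1) := by
    rw [Nat.le_div_iff_mul_le hH0, mul_comm]; exact hN
  have hN0 : N / (H + 1) ≠ 0 := by
    have : 0 < b ^ (l₀ + 1) := by positivity
    omega
  have hl : l₀ + 1 ≤ Nat.log b (N / (H + 1)) := Nat.le_log_of_pow_le (by omega) hN1
  have a1 : b ^ Nat.log b (N / (H + 1)) ≤ N / (H + 1) := Nat.pow_log_le_self b hN0
  have a2 : N / (H + 1) < b ^ (Nat.log b (N / (H + 1)) + 1) :=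
    Nat.lt_pow_succ_log_self (by omega) _
  obtain ⟨l, hl'⟩ : ∃ l, Nat.log b (N / (H + 1)) = l + 1 :=
    ⟨Nat.log b (N / (H + 1)) - 1, by omega⟩
  rw [hl'] at hl a1 a2
  rw [Nat.le_div_iff_mul_le hH0] at a1
  rw [Nat.div_lt_iff_lt_mul hH0] at a2
  obtain ⟨⟨S, hS, hScard⟩, hnear, hdig₁⟩ := h₀ l (by omega)
  obtain ⟨_, _, hdig⟩ := h₀ (l + 1) (by omega)
  have hcop : (b - 1).Coprime b := by
    obtain ⟨c, rfl⟩ : ∃ c, b = c + 1 := ⟨b - 1, by omega⟩
    simp
  have hY : 0 < b ^ l := by positivity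
  obtain ⟨p, p1, p2, p3, p4⟩ := hdig₁ (b - 1) (by omega) hcop
  obtain ⟨m1, m2⟩ := rev_bounds hb p2 p3
  rw [p4] at m1 m2
  rw [Nat.sub_add_cancel (by omega)] at m2
  obtain ⟨q, q1, q2, q3, q4⟩ := hdig (b - 1) (by omega) hcop
  obtain ⟨r2, r3⟩ := rev_bounds hb q2 q3
  rw [q4] at r2 r3
  rw [Nat.sub_add_cancel (by omega)] at r3
  have r1 : IsSumOfRevPrimes b 1 (rev b q) := isSum_one q1
  set r := rev b q with hr
  set X := b ^ (l + 1) with hX
  have hXe : X = b ^ l * b := pow_succ _ _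
  have hX2 : 2 ≤ X := by clear * - X b l hXe p hY p2 p3; rw [hXe]; nlinarith
  have hX0 : 0 < X := by omega
  have m3 : X ≤ 2 * rev b p := by
    have : b * b ^ l ≤ 2 * ((b - 1) * b ^ l) := by
      rw [← mul_assoc]; exact Nat.mul_le_mul_right _ (by omega)
    rw [hXe, mul_comm]; omega
  have m4 : rev b p ≤ X := by rw [hXe, mul_comm]; exact m2.le
  have hcard : 2 ^ 23 * (4 * X) < 3 ^ 23 * S.card := by omega
  have hr0 : 0 < r := lt_of_lt_of_le (Nat.mul_pos (by omega) hX0) r2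
  set M := N - (H + 1) * X with hM
  have hM1 : M / r ≤ 2 * (H + 1) := by
    refine Nat.div_le_of_le_mul ?_
    have e1 : b * X ≤ 2 * ((b - 1) * X) := by
      rw [← mul_assoc]; exact Nat.mul_le_mul_right _ (by omega)
    have e2 : N < b * X * (H + 1) := by rw [pow_succ, ← hX, mul_comm X b] at a2; exact a2
    have e3 : b * X * (H + 1) ≤ (2 * r) * (H + 1) := Nat.mul_le_mul_right _ (by omega)
    have e4 : M ≤ N := Nat.sub_le _ _
    have e5 : 2 * r * (H + 1) = r * (2 * (H + 1)) := by ring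
    omega
  have hM2 : M % r / X < b := by
    rw [Nat.div_lt_iff_lt_mul hX0]
    exact (Nat.mod_lt _ hr0).trans r3
  obtain ⟨L, L1, L2, L3⟩ := hg _ hM2
  obtain ⟨c0, ρ, c1, c2, c3⟩ := list_near hb hnear L L2 (by omega)
  have c4 : L.length * b ^ l ≤ X := by
    rw [hXe, mul_comm]; exact Nat.mul_le_mul_left _ (by omega)
  rw [L3] at c2 c3
  have d1 := Nat.div_add_mod (M % r) X
  have d2 := Nat.mod_lt (M % r) hX0
  rw [mul_comm] at d1
  have d3 : (H + 1) * X = H * X + X := by ring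
  have d4 : H * X ≤ (H + 1) * X + M % r - ρ := by omega
  have d5 : (H + 1) * X + M % r - ρ ≤ H * X + 3 * X := by omega
  have c5 := cover hb hX2 m3 m4 (isSum_one p1) S hS hcard ((H + 1) * X + M % r - ρ) (by
    rw [← mul_assoc, mul_comm (2 ^ 23) 2, ← hH]; exact d4)
  have c6 : ((H + 1) * X + M % r - ρ) / rev b p ≤ 2 * (H + 3) := by
    refine Nat.div_le_of_le_mul (d5.trans ?_)
    calc H * X + 3 * X = (H + 3) * X := by ring
      _ ≤ (H + 3) * (2 * rev b p) := Nat.mul_le_mul_left _ m3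
      _ = _ := by ring
  have c7 := ((r1.mul (M / r)).add c1).add c5
  have c8 : M / r * r + ρ + ((H + 1) * X + M % r - ρ) = N := by
    have := Nat.div_add_mod M r
    rw [mul_comm] at this
    rw [mul_comm] at a1
    omega
  rw [c8] at c7
  exact c7.mono (by omega)

end Pool.Agent.Work.MP_eac634_nt
end

-- merged part: Pool.Agent.Work.MP_eac634_nt.Hedge.Lower
section
/-!
# The lower bound `g(b) ≤ K_b`
-/

open Finset Filter Topology

namespace Pool.Agent.Work.MP_eac634_nt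

lemma IsSumOfU.mono {b k k' n : ℕ} (h : IsSumOfU b k n) (hk : k ≤ k') : IsSumOfU b k' n := by
  obtain ⟨l, h1, h2, h3⟩ := h
  exact ⟨l, h1.trans hk, h2, h3⟩

lemma IsSumOfU.add {b k k' n n' : ℕ} (h : IsSumOfU b k n) (h' : IsSumOfU b k' n') :
    IsSumOfU b (k + k') (n + n') := by
  obtain ⟨l, h1, h2, h3⟩ := h
  obtain ⟨l', h1', h2', h3'⟩ := h'
  refine ⟨l ++ l', by rw [List.length_append]; omega, fun u hu => ?_, by
    rw [List.sum_append, h3, h3']⟩
  rcases List.mem_append.1 hu with h | h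
  · exact h2 u h
  · exact h2' u h

lemma isSumOfU_zero (b k : ℕ) : IsSumOfU b k 0 := ⟨[], Nat.zero_le _, by simp, rfl⟩

lemma isSumOfU_one {b u : ℕ} (h : u.Coprime b ∨ (u - 1).Coprime b) : IsSumOfU b 1 u :=
  ⟨[u], le_rfl, by simpa using h, by simp⟩

lemma rev_div {b L p : ℕ} (hb : 2 ≤ b) (hL : 2 ≤ L) (hp : p.Prime) (h : rev b p < b ^ (L + 1)) :
    rev b p / b ^ L = 0 ∨ (rev b p / b ^ L).Coprime b := by
  have h1 : b ^ Nat.log b p ≤ p := Nat.pow_log_le_self b hp.ne_zero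
  have h2 : p < b ^ (Nat.log b p + 1) := Nat.lt_pow_succ_log_self (by omega) _
  obtain ⟨r1, r2⟩ := rev_bounds hb h1 h2
  have hm := Nat.mod_lt p (show 0 < b by omega)
  have hY : 0 < b ^ L := by positivity
  rcases lt_or_ge (Nat.log b p) L with h3 | h3
  · left
    refine Nat.div_eq_of_lt (r2.trans_le ?_)
    calc (p % b + 1) * b ^ Nat.log b p ≤ b * b ^ Nat.log b p := Nat.mul_le_mul_right _ hm
      _ = b ^ (Nat.log b p + 1) := by ring
      _ ≤ b ^ L := Nat.pow_le_pow_right (by omega) h3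
  · right
    have h4 : b < p := by
      clear * - b p hb L hL h3 h1
      calc b < b ^ 2 := by nlinarith
        _ ≤ b ^ Nat.log b p := Nat.pow_le_pow_right (by omega) (hL.trans h3)
        _ ≤ p := h1
    have h5 : p.Coprime b := (Nat.coprime_of_lt_prime (by omega) h4 hp)
    have h6 : (p % b).Coprime b := by
      rw [Nat.Coprime, ← Nat.gcd_rec, Nat.gcd_comm]
      exact h5
    have h7 : 1 ≤ p % b := pos_of_U hb (Or.inl h6)
    have h8 : Nat.log b p = L := by
      by_contra h9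
      have h10 : b ^ (L + 1) ≤ b ^ Nat.log b p := Nat.pow_le_pow_right (by omega) (by omega)
      have h11 : 1 * b ^ Nat.log b p ≤ p % b * b ^ Nat.log b p := Nat.mul_le_mul_right _ h7
      omega
    rw [h8] at r1 r2
    rw [Nat.div_eq_of_lt_le r1 r2]
    exact h6

lemma list_floor {b Y : ℕ} : ∀ (l : List ℕ) (n : ℕ),
    (∀ r ∈ l, r / Y = 0 ∨ (r / Y).Coprime b) → (l.map (· / Y)).sum ≤ n →
      n ≤ (l.map (· / Y)).sum + l.length → IsSumOfU b l.length n := by
  intro l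
  induction l with
  | nil =>
    intro n _ _ h
    have : n = 0 := by simpa using h
    rw [this]
    exact isSumOfU_zero _ _
  | cons r l ih =>
    intro n h1 h2 h3
    rw [List.map_cons, List.sum_cons] at h2 h3
    rw [List.length_cons] at h3 ⊢
    have h4 := h1 r List.mem_cons_self
    have h5 : ∀ v ∈ l, v / Y = 0 ∨ (v / Y).Coprime b := fun v hv => h1 v (List.mem_cons_of_mem _ hv)
    by_cases h6 : n ≤ r / Y + (l.map (· / Y)).sum + l.length
    · have h7 := ih (n - r / Y) h5 (by omega) (by omega)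
      rcases h4 with h4 | h4
      · rw [h4, Nat.sub_zero] at h7
        exact h7.mono (by omega)
      · have h8 := h7.add (isSumOfU_one (Or.inl h4))
        rwa [Nat.sub_add_cancel (by omega)] at h8
    · have h7 := ih (n - (r / Y + 1)) h5 (by omega) (by omega)
      have h8 : IsSumOfU b 1 (r / Y + 1) := by
        refine isSumOfU_one ?_
        rcases h4 with h4 | h4
        · left
          rw [h4]
          simp
        · right
          rwa [Nat.add_sub_cancel]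
      have h9 := h7.add h8
      rwa [Nat.sub_add_cancel (by omega)] at h9

lemma list_floor_bounds {Y : ℕ} (hY : 0 < Y) : ∀ l : List ℕ,
    (l.map (· / Y)).sum * Y ≤ l.sum ∧ l.sum ≤ ((l.map (· / Y)).sum + l.length) * Y := by
  intro l
  induction l with
  | nil => simp
  | cons r l ih =>
    rw [List.map_cons, List.sum_cons, List.sum_cons, List.length_cons]
    have h1 := Nat.div_add_mod r Y
    have h2 := Nat.mod_lt r hY
    rw [mul_comm] at h1
    obtain ⟨i1, i2⟩ := ih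
    simp only [add_mul, one_mul] at i2 ⊢
    omega

theorem isSumOfU_of_isSum {b k N₀ : ℕ} (hb : 2 ≤ b)
    (h : ∀ N : ℕ, N₀ ≤ N → IsSumOfRevPrimes b k N) : ∀ n < b, IsSumOfU b k n := by
  intro n hn
  rcases Nat.eq_zero_or_pos n with rfl | hn0
  · exact isSumOfU_zero _ _
  set L := N₀ + 2 with hL
  have hY : 0 < b ^ L := by positivity
  have h1 : N₀ ≤ n * b ^ L := by
    clear * - L b N₀ hb n hn0 hL
    have : L < b ^ L := Nat.lt_pow_self (by omega)
    nlinarith
  obtain ⟨l, l1, l2, l3⟩ := h _ h1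
  obtain ⟨b1, b2⟩ := list_floor_bounds hY (l.map (rev b))
  rw [l3] at b1 b2
  have h2 := list_floor (b := b) (Y := b ^ L) (l.map (rev b)) n (fun r hr => by
    have h3 : r ≤ n * b ^ L := l3 ▸ List.single_le_sum (fun _ _ => Nat.zero_le _) r hr
    obtain ⟨p, hp, rfl⟩ := List.mem_map.1 hr
    refine rev_div hb (by omega) (l2 p hp) (h3.trans_lt ?_)
    rw [pow_succ, mul_comm]
    exact Nat.mul_lt_mul_of_pos_left hn hY) (Nat.le_of_mul_le_mul_right b1 hY)
    (Nat.le_of_mul_le_mul_right b2 hY)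
  rw [List.length_map] at h2
  exact h2.mono l1

lemma isSumOfU_half (b n : ℕ) : IsSumOfU b (n / 2 + 1) n := by
  have h : ∀ j : ℕ, IsSumOfU b j (2 * j) := by
    intro j
    induction j with
    | zero => exact isSumOfU_zero _ _
    | succ j ih => exact ih.add (isSumOfU_one (u := 2) (Or.inr (by simp)))
  rcases Nat.even_or_odd' n with ⟨j, rfl | rfl⟩
  · exact (h j).mono (by omega)
  · exact ((h j).add (isSumOfU_one (u := 1) (Or.inl (by simp)))).mono (by omega)

theorem additive_bounds {b : ℕ} (hb : 2 ≤ b) : ∃ K g : ℕ,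
    IsLeast {k : ℕ | 2 ≤ k ∧ ∃ N₀ : ℕ, ∀ N : ℕ, N₀ ≤ N → IsSumOfRevPrimes b k N} K ∧
      IsLeast {k : ℕ | ∀ n < b, IsSumOfU b k n} g ∧ g ≤ K ∧ K ≤ g + 10 ^ 8 := by
  have hg : ({k : ℕ | ∀ n < b, IsSumOfU b k n} : Set ℕ).Nonempty :=
    ⟨b, fun n hn => (isSumOfU_half b n).mono (by omega)⟩
  have hg1 := Nat.sInf_mem hg
  have hK : sInf {k : ℕ | ∀ n < b, IsSumOfU b k n} + 10 ^ 8 ∈
      {k : ℕ | 2 ≤ k ∧ ∃ N₀ : ℕ, ∀ N : ℕ, N₀ ≤ N → IsSumOfRevPrimes b k N} :=
    ⟨by omega, eventually_atTop.1 (eventually_isSum_add hb hg1)⟩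
  have hK1 := Nat.sInf_mem ⟨_, hK⟩
  refine ⟨sInf _, sInf _, ⟨hK1, fun k hk => Nat.sInf_le hk⟩, ⟨hg1, fun k hk => Nat.sInf_le hk⟩,
    ?_, Nat.sInf_le hK⟩
  obtain ⟨_, N₀, h⟩ := hK1
  exact Nat.sInf_le (isSumOfU_of_isSum hb h)

end Pool.Agent.Work.MP_eac634_nt
end
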