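import Pool.Agent.Work.MP_eac634_nt.Hedge.Lower

/-!
# The sharp constant `1 / 2`
-/

open Finset Filter Topology

namespace Pool.Agent.Work.MP_eac634_nt

lemma sum_log_primeFactors_le {b : ℕ} (hb : b ≠ 0) :
    ∑ p ∈ b.primeFactors, Real.log p ≤ Real.log b := by
  rw [← Real.log_prod (fun p hp => by
    have := (Nat.prime_of_mem_primeFactors hp).pos
    positivity), ← Nat.cast_prod]
  refine Real.log_le_log ?_ ?_
  · exact_mod_cast prod_pos fun p hp => (Nat.prime_of_mem_primeFactors hp).pos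
  · exact_mod_cast Nat.le_of_dvd (Nat.pos_of_ne_zero hb) (Nat.prod_primeFactors_dvd b)

/-- A prime in `(η x, x]` not dividing `b`, as soon as `x ≥ c log b` with `c (1 - η) > 1`. -/
lemma exists_coprime_near {η c : ℝ} (h0 : 0 < η) (hc : 1 ≤ c) (h : 1 < c * (1 - η)) :
    ∃ x₀ : ℝ, ∀ b : ℕ, b ≠ 0 → x₀ ≤ Real.log b → ∀ x : ℕ, c * Real.log b ≤ x →
      ∃ u : ℕ, u ≤ x ∧ η * x ≤ u ∧ u.Coprime b := by
  have hc0 : 0 < c := by linarith
  have h1 := Pool.Agent.Lib.ANT.tendsto_theta_div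
  have h2 := (h1.comp (tendsto_id.const_mul_atTop h0)).const_mul η
  have h3 := (h1.sub h2).eventually (lt_mem_nhds (a := 1 / c) (by
    rw [div_lt_iff₀ hc0]; linarith))
  obtain ⟨x₀, hx₀⟩ := eventually_atTop.1 (h3.and (eventually_gt_atTop 0))
  refine ⟨x₀, fun b hb hlog x hx => ?_⟩
  have hl0 := Real.log_natCast_nonneg b
  obtain ⟨a1, a2⟩ := hx₀ x (by nlinarith)
  simp only [Function.comp, id] at a1
  have a3 : Chebyshev.theta x / x - η * (Chebyshev.theta (η * x) / (η * x)) =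
      (Chebyshev.theta x - Chebyshev.theta (η * x)) / x := by
    field_simp
  rw [a3, div_lt_div_iff₀ hc0 a2] at a1
  by_contra hcon
  push Not at hcon
  have a4 : Chebyshev.theta x ≤ Chebyshev.theta (η * x) + ∑ p ∈ b.primeFactors, Real.log p := by
    unfold Chebyshev.theta
    rw [Nat.floor_natCast]
    have hsub : (Ioc 0 x).filter Nat.Prime ⊆
        (Ioc 0 ⌊η * x⌋₊).filter Nat.Prime ∪ b.primeFactors := by
      intro p hp
      obtain ⟨p1, p2⟩ := mem_filter.1 hp
      obtain ⟨p3, p4⟩ := mem_Ioc.1 p1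
      by_cases h5 : η * x ≤ p
      · refine mem_union_right _ (Nat.mem_primeFactors.2 ⟨p2, ?_, hb⟩)
        by_contra h6
        exact hcon p p4 h5 ((Nat.Prime.coprime_iff_not_dvd p2).2 h6)
      · exact mem_union_left _ (mem_filter.2 ⟨mem_Ioc.2 ⟨p3, Nat.le_floor (not_le.1 h5).le⟩, p2⟩)
    refine (sum_le_sum_of_subset_of_nonneg hsub fun p _ _ => Real.log_natCast_nonneg p).trans ?_
    rw [← sum_union_inter]
    exact le_add_of_nonneg_right (sum_nonneg fun p _ => Real.log_natCast_nonneg p)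
  have a5 := sum_log_primeFactors_le hb
  nlinarith

lemma reduce {b : ℕ} {μ T : ℝ} (hμ : 0 ≤ μ)
    (h : ∀ x : ℕ, T ≤ x → ∃ u : ℕ, u ≤ x ∧ (1 - μ) * x ≤ u ∧ u.Coprime b) :
    ∀ (s x : ℕ), (x : ℝ) * μ ^ s < T →
      ∃ x' : ℕ, x' ≤ x ∧ (x' : ℝ) < T ∧ IsSumOfU b s (x - x') := by
  intro s
  induction s with
  | zero =>
    intro x hx
    exact ⟨x, le_rfl, by simpa using hx, by simpa using isSumOfU_zero b 0⟩
  | succ s ih =>
    intro x hx
    rcases lt_or_ge (x : ℝ) T with h1 | h1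
    · exact ⟨x, le_rfl, h1, by simpa using isSumOfU_zero b (s + 1)⟩
    obtain ⟨u, u1, u2, u3⟩ := h x h1
    obtain ⟨x', a1, a2, a3⟩ := ih (x - u) (by
      refine lt_of_le_of_lt ?_ hx
      rw [Nat.cast_sub u1, pow_succ, mul_comm (μ ^ s) μ, ← mul_assoc]
      exact mul_le_mul_of_nonneg_right (by linarith) (pow_nonneg hμ s))
    refine ⟨x', by omega, a2, ?_⟩
    have := a3.add (isSumOfU_one (Or.inl u3))
    rwa [show x - u - x' + u = x - x' by omega] at this

lemma tendsto_log_nat : Tendsto (fun b : ℕ => Real.log b) atTop atTop :=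
  Real.tendsto_log_atTop.comp tendsto_natCast_atTop_atTop

theorem eventually_g_le {ε : ℝ} (hε : 0 < ε) : ∀ᶠ b : ℕ in atTop, ∃ k : ℕ,
    (∀ n < b, IsSumOfU b k n) ∧ (k : ℝ) + 10 ^ 8 ≤ (1 / 2 + ε) * Real.log b := by
  obtain ⟨M, hM2, hM⟩ : ∃ M : ℕ, 2 ≤ M ∧ 4 / ε ≤ Real.log M :=
    ((eventually_ge_atTop 2).and (tendsto_log_nat.eventually_ge_atTop _)).exists
  have hM' : (2 : ℝ) ≤ M := by exact_mod_cast hM2
  have hMi : (0 : ℝ) < 1 / M := by positivity
  have hMi2 : (1 : ℝ) / M ≤ 1 / 2 := by gcongr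
  obtain ⟨x₁, h₁⟩ := exists_coprime_near (η := 1 - 1 / M) (c := 2 * M) (by linarith) (by linarith)
    (by
      rw [show 2 * (M : ℝ) * (1 - (1 - 1 / M)) = 2 by field_simp; ring]
      norm_num)
  set δ : ℝ := ε / (2 * (1 + ε)) with hδ
  have hδ0 : 0 < δ := by positivity
  have hδ1 : δ < 1 := by
    rw [hδ, div_lt_one (by positivity)]; linarith
  obtain ⟨x₂, h₂⟩ := exists_coprime_near (η := δ) (c := 1 + ε) hδ0 (by linarith) (by
    rw [show (1 + ε) * (1 - δ) = 1 + ε / 2 by rw [hδ]; field_simp; ring]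
    linarith)
  obtain ⟨s₂, hs₂⟩ := exists_pow_lt_of_lt_one (x := 1 / (2 * (M : ℝ))) (y := 1 - δ)
    (by positivity) (by linarith)
  filter_upwards [tendsto_log_nat.eventually_ge_atTop x₁, tendsto_log_nat.eventually_ge_atTop x₂,
    tendsto_log_nat.eventually_ge_atTop 1,
    tendsto_log_nat.eventually_ge_atTop (4 / ε * (s₂ + 2 + 10 ^ 8)),
    eventually_ge_atTop 1] with b b1 b2 b3 b4 b5
  set L := Real.log b with hL
  refine ⟨Nat.log M b + 1 + s₂ + (⌊(1 + ε) * L / 2⌋₊ + 1), fun n hn => ?_, ?_⟩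
  · obtain ⟨x, a1, a2, a3⟩ := reduce (b := b) (μ := 1 / M) (T := 2 * M * L) hMi.le
      (h₁ b (by omega) b1) (Nat.log M b + 1) n (by
        have e1 : b < M ^ (Nat.log M b + 1) := Nat.lt_pow_succ_log_self (by omega) _
        have e2 : (n : ℝ) < (M : ℝ) ^ (Nat.log M b + 1) := by exact_mod_cast hn.trans e1
        rw [one_div_pow, ← div_eq_mul_one_div]
        have e3 := (div_lt_one (by positivity)).2 e2
        linarith only [e3, hM', mul_le_mul_of_nonneg_left b3 (zero_le_two.trans hM')])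
    obtain ⟨y, c1, c2, c3⟩ := reduce (b := b) (μ := 1 - δ) (T := (1 + ε) * L) (by linarith)
      (by simpa using h₂ b (by omega) b2) s₂ x (by
        have e1 : (0 : ℝ) ≤ (1 - δ) ^ s₂ := pow_nonneg (by linarith) _
        calc (x : ℝ) * (1 - δ) ^ s₂ ≤ 2 * M * L * (1 / (2 * M)) := by gcongr
          _ = L := by field_simp
          _ < _ := lt_mul_left (by linarith only [b3]) (by linarith only [hε]))
    have c4 : y / 2 ≤ ⌊(1 + ε) * L / 2⌋₊ := by
      refine Nat.le_floor ?_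
      have : ((y / 2 : ℕ) : ℝ) ≤ (y : ℝ) / 2 := Nat.cast_div_le
      linarith only [this, c2]
    have c5 := (a3.add c3).add ((isSumOfU_half b y).mono (Nat.add_le_add_right c4 1))
    rwa [show n - x + (x - y) + y = n by omega] at c5
  · have e1 : (Nat.log M b : ℝ) * Real.log M ≤ L := by
      rw [← Real.log_pow]
      refine Real.log_le_log (by positivity) ?_
      exact_mod_cast Nat.pow_log_le_self M (by omega : b ≠ 0)
    have e2 : (Nat.log M b : ℝ) ≤ ε / 4 * L := by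
      have e3 : (Nat.log M b : ℝ) * (4 / ε) ≤ L :=
        (mul_le_mul_of_nonneg_left hM (by positivity)).trans e1
      calc (Nat.log M b : ℝ) = ε / 4 * (Nat.log M b * (4 / ε)) := by field_simp
        _ ≤ _ := by gcongr
    have e4 : (⌊(1 + ε) * L / 2⌋₊ : ℝ) ≤ (1 + ε) * L / 2 := Nat.floor_le (by positivity)
    have e5 : (s₂ : ℝ) + 2 + 10 ^ 8 ≤ ε / 4 * L := by
      calc (s₂ : ℝ) + 2 + 10 ^ 8 = ε / 4 * (4 / ε * (s₂ + 2 + 10 ^ 8)) := by field_simp
        _ ≤ _ := by gcongr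
    push_cast
    linarith only [e2, e4, e5]

lemma le_two_mul_of_primorial {y k : ℕ} (h : IsSumOfU (primorial y) k y) :
    y ≤ 2 * k := by
  obtain ⟨l, l1, l2, l3⟩ := h
  have h1 : ∀ u : ℕ, u ≤ y → u.Coprime (primorial y) → u ≤ 1 := by
    intro u hu hc
    by_contra h2
    have h3 : u.minFac.Prime := Nat.minFac_prime (by omega)
    have h4 : u.minFac ∣ primorial y :=
      h3.dvd_primorial_iff.2 ((Nat.minFac_le (by omega)).trans hu)
    exact h3.one_lt.ne' (Nat.eq_one_of_dvd_coprimes hc (Nat.minFac_dvd u) h4)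
  have h2 : ∀ u ∈ l, u ≤ 2 := by
    intro u hu
    have h3 : u ≤ y := l3 ▸ List.single_le_sum (fun _ _ => Nat.zero_le _) u hu
    rcases l2 u hu with h4 | h4
    · have := h1 u h3 h4
      omega
    · have := h1 (u - 1) (by omega) h4
      omega
  have h3 := List.sum_le_card_nsmul l 2 h2
  rw [l3, smul_eq_mul] at h3
  omega

theorem frequently_g_ge {ε : ℝ} (hε : 0 < ε) : ∃ᶠ b : ℕ in atTop, ∀ k : ℕ,
    (∀ n < b, IsSumOfU b k n) → (1 / 2 - ε) * Real.log b ≤ k := by
  have h1 : Tendsto primorial atTop atTop :=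
    tendsto_atTop_mono (fun _ => le_primorial_self) tendsto_id
  refine h1.frequently (Eventually.frequently ?_)
  have h2 := (Pool.Agent.Lib.ANT.tendsto_theta_div.comp tendsto_natCast_atTop_atTop).eventually
    (gt_mem_nhds (a := 1 + ε) (by linarith))
  filter_upwards [h2, eventually_gt_atTop 2] with y a1 a2 k hk
  have a3 := le_two_mul_of_primorial (hk y (lt_primorial_self a2))
  have a4 : (y : ℝ) ≤ 2 * k := by exact_mod_cast a3
  have a5 : (0 : ℝ) < y := by positivity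
  simp only [Function.comp] at a1
  rw [div_lt_iff₀ a5, Chebyshev.theta_eq_log_primorial, Nat.floor_natCast] at a1
  have a6 := Real.log_natCast_nonneg (primorial y)
  have a7 : (0 : ℝ) ≤ k := by positivity
  have a8 : (1 / 2 - ε) * Real.log (primorial y) * (1 + ε) ≤ k * (1 + ε) := by
    nlinarith [mul_nonneg hε.le a6, mul_nonneg (mul_nonneg hε.le hε.le) a6]
  exact le_of_mul_le_mul_right a8 (by linarith)

lemma Kb_eq {b K : ℕ}
    (h : IsLeast {k : ℕ | 2 ≤ k ∧ ∃ N₀ : ℕ, ∀ N : ℕ, N₀ ≤ N → IsSumOfRevPrimes b k N} K) :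
    Kb b = K := by
  refine le_antisymm (sInf_le ⟨K, rfl, h.1⟩) (le_sInf ?_)
  rintro x ⟨k, rfl, hk⟩
  exact_mod_cast h.2 hk

theorem limsup_Kb :
    limsup (fun b : ℕ => Kb b / ENNReal.ofReal (Real.log b)) atTop = 1 / 2 := by
  have hhalf : (1 / 2 : ENNReal) = ENNReal.ofReal (1 / 2) := by
    rw [ENNReal.ofReal_div_of_pos (by norm_num)]
    simp
  have hq : ∀ b K : ℕ, 2 ≤ b → (K : ENNReal) / ENNReal.ofReal (Real.log b) =
      ENNReal.ofReal (K / Real.log b) := by
    intro b K hb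
    have : 0 < Real.log b := Real.log_pos (by exact_mod_cast hb)
    rw [ENNReal.ofReal_div_of_pos this, ENNReal.ofReal_natCast]
  refine le_antisymm ?_ ?_
  · refine ENNReal.le_of_forall_pos_le_add fun ε hε _ => ?_
    refine limsup_le_of_le (by isBoundedDefault) ?_
    filter_upwards [eventually_g_le (ε := ε) hε, eventually_ge_atTop 2] with b hb hb2
    obtain ⟨k, k1, k2⟩ := hb
    obtain ⟨K, g, a1, a2, _, a4⟩ := additive_bounds hb2
    have hlog : 0 < Real.log b := Real.log_pos (by exact_mod_cast hb2)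
    have a5 : (K : ℝ) ≤ k + 10 ^ 8 := by
      exact_mod_cast a4.trans (Nat.add_le_add_right (a2.2 k1) _)
    rw [Kb_eq a1, hq b K hb2, hhalf, ← ENNReal.ofReal_coe_nnreal,
      ← ENNReal.ofReal_add (by norm_num) (by positivity)]
    refine ENNReal.ofReal_le_ofReal ?_
    rw [div_le_iff₀ hlog]
    linarith
  · refine ENNReal.le_of_forall_pos_le_add fun ε hε _ => ?_
    have h1 : ENNReal.ofReal (1 / 2 - ε) ≤
        limsup (fun b : ℕ => Kb b / ENNReal.ofReal (Real.log b)) atTop := by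
      refine le_limsup_of_frequently_le ?_ (by isBoundedDefault)
      refine ((frequently_g_ge (ε := ε) hε).and_eventually (eventually_ge_atTop 2)).mono ?_
      rintro b ⟨hb, hb2⟩
      obtain ⟨K, g, a1, a2, a3, _⟩ := additive_bounds hb2
      have hlog : 0 < Real.log b := Real.log_pos (by exact_mod_cast hb2)
      have a5 : (g : ℝ) ≤ K := by exact_mod_cast a3
      rw [Kb_eq a1, hq b K hb2]
      refine ENNReal.ofReal_le_ofReal ?_
      rw [le_div_iff₀ hlog]
      exact (hb g a2.1).trans a5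
    calc (1 / 2 : ENNReal) = ENNReal.ofReal ((1 / 2 - ε) + ε) := by rw [hhalf]; congr 1; ring
      _ ≤ ENNReal.ofReal (1 / 2 - ε) + ENNReal.ofReal ε := ENNReal.ofReal_add_le
      _ ≤ _ := by
        rw [ENNReal.ofReal_coe_nnreal]
        gcongr

end Pool.Agent.Work.MP_eac634_nt
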